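import Pool.Agent.Helper90.MZ.StmtsC

/-!
Module ACF: finitely many active classes. Besides the listed dependencies the module uses ST_ATMB
(last argument); ST_SRFIN and ST_FWB are not needed.
-/

set_option autoImplicit false

namespace Pool.Agent.Helper90.MZ

open Pool.Agent.Helper90.TS

variable {V G : Type} [Group G] [MulAction G V]

/-- the empty tuple is isolated -/
theorem acf_isl0 (X : Ctx V G) (A : Set V) (c : Fin 0 → V) : Isl X A c := by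
  obtain ⟨D, hD, hinv, hc⟩ := X.sort (Fin 0) c
  refine ⟨D, ⟨hD, fun g _ x hx => hinv g (Subgroup.mem_top g) x hx⟩, hc, fun x _ => ?_⟩
  have e : x = c := Subsingleton.elim _ _
  rw [e]
  exact eqv_refl A c

/-- step 1: representatives over a model in different orbits -/
theorem acf_one (h1 : ST_NN) (h2 : ST_ACI) (h4 : ST_ORBC) (h9 : ST_MDLB) (h12 : ST_SUPU)
    (h13 : ST_NOEQ) (X : Ctx V G) (hF : Few X) (C : ℕ → Ty V)
    (hC : ∀ n, SR X (C n) ∧ Act X (C n)) (hCC : ∀ m n, m ≠ n → ¬ NO X (C m) (C n)) :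
    ∃ (M0 : Set V) (p : ℕ → Ty V), Mdl X M0 ∧
      (∀ n, SR X (p n) ∧ (p n).A.Finite ∧ (p n).A ⊆ M0 ∧ Act X (p n)) ∧
      ∀ (m n : ℕ) (σ : G), NO X (mv σ (p m)) (p n) → m = n := by
  obtain ⟨M0, hM0, -, -⟩ := (h9 V G X).2.1 ∅ ∅ ∅ (Set.empty_subset _) Set.countable_empty
    Set.countable_empty si_empty_right
  have hS : ∀ n, Sup X ∅ (C n) := fun n => h1 V G X (C n) hF (hC n).1 (hC n).2
  have hex : ∀ n, ∃ p, SR X p ∧ p.A ⊆ M0 ∧ p.A.Finite ∧ NO X p (C n) ∧ NO X (C n) p := fun n =>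
    (h12 V G X).2.2.2.2.2.1 M0 (C n) (hC n).1 (hS n M0 hM0 (Set.empty_subset _))
  choose P hP1 hP2 hP3 hP4 hP5 using hex
  have hPS : ∀ n, Sup X ∅ (P n) := fun n =>
    (h12 V G X).2.2.2.1 ∅ (C n) (P n) (hC n).1 (hP1 n) (hP5 n) (hS n)
  have hPA : ∀ n, Act X (P n) := fun n =>
    (h2 V G X (C n) (hC n).1 (hC n).2).1 (P n) (hP1 n) (hP5 n)
  have hPP : ∀ m n, m ≠ n → ¬ NO X (P m) (P n) := by
    intro m n hmn h
    apply hCC m n hmn
    have h5 := (h13 V G X).2.2 (C m) (P m) (P n) (hC m).1 (hP1 m) (hP1 n) (hP5 m) h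
    exact (h13 V G X).2.2 (C m) (P n) (C n) (hC m).1 (hP1 n) (hC n).1 h5 (hP4 n)
  obtain ⟨f, hf, hfo⟩ := h4 V G X ∅ P Set.finite_empty
    (fun n => ⟨hP1 n, hP3 n, hPS n⟩) hPP
  refine ⟨M0, fun n => P (f n), hM0, fun n => ⟨hP1 _, hP3 _, hP2 _, hPA _⟩, ?_⟩
  intro m n σ h
  exact hfo m n σ (fun a ha => absurd ha (Set.notMem_empty a)) h

/-- step 2: independent extensions -/
theorem acf_two (h8 : ST_PRIM) (h9 : ST_MDLB) (h10 : ST_RLB) (h14 : ST_INVA) (h15 : ST_IND)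
    (h18 : ST_ATMB) (X : Ctx V G) (M0 : Set V) (p : ℕ → Ty V) (hM0 : Mdl X M0)
    (hp : ∀ n, SR X (p n) ∧ (p n).A ⊆ M0) :
    ∃ (Z : ℕ → Fin 1 → V) (K : ℕ → Set V), (∀ n, Rl X (p n) M0 (Z n) ∧
      Atm X (M0 ∪ Set.range (Z n)) (K n)) ∧ Ind X M0 K := by
  have hM0c : M0.Countable := hM0.1
  have hex : ∀ n, ∃ (z : Fin 1 → V) (N : Set V), Rl X (p n) M0 z ∧
      Atm X (M0 ∪ Set.range z) N := by
    intro n
    obtain ⟨z, hz⟩ := (h10 V G X (p n) (hp n).1 M0 hM0c).1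
    have hc : (M0 ∪ Set.range z).Countable := hM0c.union (Set.countable_range z)
    obtain ⟨M, hM, hMs, -⟩ := (h9 V G X).2.1 ∅ ∅ (M0 ∪ Set.range z) (Set.empty_subset _) hc
      Set.countable_empty si_empty_right
    obtain ⟨N, hN, hA⟩ := h8 V G X (M0 ∪ Set.range z) M hM hMs
    exact ⟨z, N, hz, hA⟩
  choose z N hz hN using hex
  have hNc : ∀ n, (N n).Countable := fun n => (hN n).1.1
  obtain ⟨g, hg, hgi, -⟩ := (h15 V G X M0 hM0c).2.2.2.2.2.1 N ∅ hNc Set.countable_empty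
  refine ⟨fun n => g n • z n, fun n => tr (g n) (N n), fun n => ⟨?_, ?_⟩, hgi⟩
  · have h1 := (h14 V G X (g n)).2.1 (p n) M0 (z n) (hp n).1.cnt hM0c (hz n)
    rw [tr_fx (hg n)] at h1
    have h2 := (h14 V G X (g n)).2.2.2.2.2.2.2.2.2.2.2 (p n) (hp n).1 (fx_anti (hp n).2 (hg n))
    exact (h2.2.2.1 M0 (g n • z n)).1 h1
  · have h1 := (h18 V G X (M0 ∪ Set.range (z n)) (N n)).2.2.1 (g n) (hN n)
    rw [tr_union, tr_fx (hg n), tr_range] at h1
    exact h1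

/-- step 3: the classes above, with their finite sets -/
theorem acf_three (h2 : ST_ACI) (h7 : ST_ENIU) (h10 : ST_RLB) (h12 : ST_SUPU) (h16 : ST_FDOM)
    (X : Ctx V G) (hF : Few X) (M0 K : Set V) (p : Ty V) (Z : Fin 1 → V) (hM0 : Mdl X M0)
    (hp : SR X p) (hpM : p.A ⊆ M0) (hA : Act X p) (hZ : Rl X p M0 Z)
    (hK : Atm X (M0 ∪ Set.range Z) K) :
    ∃ (r : Ty V) (h b : Set V), ENI X r ∧ Sp X K r ∧ ¬ Sp X M0 r ∧ r.A ⊆ h ∧ h.Finite ∧ h ⊆ K ∧
      b ⊆ h ∧ b ⊆ M0 ∧ SI X b h M0 ∧ ∀ y, Rl X r h y → ¬ Isl X h y := by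
  obtain ⟨q, hq, hqK, hqM⟩ := (h2 V G X p hp hA).2.2 hF M0 K Z hM0 hpM hZ hK
  obtain ⟨r, hr, hrK, hrf, hrq, hqr⟩ := (h12 V G X).2.2.2.2.2.1 K q hq.1 hqK
  have hrE : ENI X r := (h7 V G X q).2.2.2.1 hq r hr hrf hqr
  have hrS : Sp X K r := (h12 V G X).2.2.2.2.1 K r hr hrK
  have hrM : ¬ Sp X M0 r := fun h => hqM ((h12 V G X).2.2.1 M0 r q hr hq.1 hrq h)
  obtain ⟨F, hFf, hrF, hFK, hFy⟩ := (h7 V G X r).2.2.1 hrE K hK.1 hrK
  obtain ⟨b, hbM, hbf, hb⟩ := h16 V G X M0 F hM0 hFf (Fin 0) Fin.elim0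
    (acf_isl0 X (M0 ∪ F) Fin.elim0)
  have hb2 := (hb b le_rfl hbM).2
  have hM0c : M0.Countable := hM0.1
  have hbc : b.Countable := hbf.countable
  have hFc : F.Countable := hFf.countable
  have hbF : SI X b F M0 := si_left Set.subset_union_left hb2
  have hMK : M0 ⊆ K := Set.subset_union_left.trans hK.2.1
  refine ⟨r, b ∪ F, b, hrE, hrS, hrM, hrF.trans Set.subset_union_right, hbf.union hFf,
    Set.union_subset (hbM.trans hMK) hFK, Set.subset_union_left, hbM,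
    (si_add_basel hbc hFc hM0c).2 hbF, ?_⟩
  intro y hy
  obtain ⟨y0, hy0⟩ := (h10 V G X r hr F hFc).1
  have h20 : ¬ Isl X (r.A ∪ F) y0 := by
    rw [Set.union_eq_self_of_subset_left hrF]
    exact (hFy y0 hy0).1.2.2
  have h21 := (h7 V G X r).1 hr F (b ∪ F) y0 y Set.subset_union_right (hbc.union hFc) hy0 hy h20
  rwa [Set.union_eq_self_of_subset_left (hrF.trans Set.subset_union_right)] at h21

/-- all the data -/
structure AcfDat (X : Ctx V G) (M0 : Set V) (p r : ℕ → Ty V) (K h b : ℕ → Set V)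
    (Z : ℕ → Fin 1 → V) : Prop where
  mdl : Mdl X M0
  sr : ∀ n, SR X (p n)
  pM : ∀ n, (p n).A ⊆ M0
  orb : ∀ (m n : ℕ) (σ : G), NO X (mv σ (p m)) (p n) → m = n
  rl : ∀ n, Rl X (p n) M0 (Z n)
  atm : ∀ n, Atm X (M0 ∪ Set.range (Z n)) (K n)
  eni : ∀ n, ENI X (r n)
  sp : ∀ n, Sp X (K n) (r n)
  nsp : ∀ n, ¬ Sp X M0 (r n)
  rh : ∀ n, (r n).A ⊆ h n
  hfin : ∀ n, (h n).Finite
  bh : ∀ n, b n ⊆ h n
  bM : ∀ n, b n ⊆ M0
  si : ∀ n, SI X (b n) (h n) M0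
  nis : ∀ n, ∀ y, Rl X (r n) (h n) y → ¬ Isl X (h n) y
  ind : Ind X M0 h

/-- step 4: the realizations of `r n` over `h n` are generic -/
theorem acf_four (h6 : ST_ORT) (X : Ctx V G) {M0 : Set V} {p r : ℕ → Ty V} {K h b : ℕ → Set V}
    {Z : ℕ → Fin 1 → V} (D : AcfDat X M0 p r K h b Z) (n : ℕ) (y : Fin 1 → V)
    (hy : Rl X (r n) (h n) y) : Rl X (r n) (h n ∪ (M0 ∪ ⋃ m ∈ {m | m ≠ n}, h m)) y := by
  have hM0c : M0.Countable := D.mdl.1
  have hhc : ∀ m, (h m).Countable := fun m => (D.hfin m).countable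
  have hUc : (⋃ m ∈ {m | m ≠ n}, h m).Countable :=
    Set.Countable.biUnion (Set.to_countable _) fun m _ => hhc m
  have hbc : (b n).Countable := (hhc n).mono (D.bh n)
  have hi : SI X M0 (h n) (⋃ m ∈ {m | m ≠ n}, h m) := by
    have h1 := D.ind {n} {m | m ≠ n} (by
      rw [Set.disjoint_left]
      intro a ha hb
      exact hb ha)
    rwa [Set.biUnion_singleton] at h1
  have h2 : SI X (b n) (h n) (M0 ∪ ⋃ m ∈ {m | m ≠ n}, h m) :=
    si_trans' (hhc n) hM0c hUc (D.bM n) (D.si n) hi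
  have h3 : ¬ Sup X (b n) (r n) := fun hS => D.nsp n (hS M0 D.mdl (D.bM n))
  exact h6 V G X (b n) (h n) (M0 ∪ ⋃ m ∈ {m | m ≠ n}, h m) (r n) y (D.eni n).1 (D.bh n) (D.rh n)
    (hhc n) h3 (hM0c.union hUc) (si_symm hbc (hhc n) (hM0c.union hUc) h2) hy

/-- step 5: the model coding `x` -/
theorem acf_five (h5 : ST_CT) (h6 : ST_ORT) (h10 : ST_RLB) (X : Ctx V G)
    {M0 : Set V} {p r : ℕ → Ty V} {K h b : ℕ → Set V} {Z : ℕ → Fin 1 → V}
    (D : AcfDat X M0 p r K h b Z) (x : ℕ → Bool) :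
    ∃ N, Mdl X N ∧ (∀ n, x n = true → (r n).A ⊆ N ∧ Bd X (r n) N) ∧
      ∀ q : Ty V, SR X q → q.A.Finite → q.A ⊆ N → Bd X q N → ∃ n, x n = true ∧ NO X q (r n) := by
  have hM0c : M0.Countable := D.mdl.1
  have hhc : ∀ m, (h m).Countable := fun m => (D.hfin m).countable
  obtain ⟨N, hN, hAN, hOm, hNb⟩ := h5 V G X {n : ℕ // x n = true} (fun i => r i.1)
    (fun i => h i.1) (M0 ∪ ⋃ i : {n : ℕ // x n = true}, h i.1)
    (hM0c.union (Set.countable_iUnion fun i => hhc i.1)) (by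
      intro i
      refine ⟨(D.eni i.1).1, D.rh i.1, ?_, D.nis i.1, ?_⟩
      · exact (Set.subset_iUnion (fun i : {n : ℕ // x n = true} => h i.1) i).trans
          Set.subset_union_right
      · intro y hy
        have h1 := acf_four h6 X D i.1 y hy
        have hUc : (h i.1 ∪ (M0 ∪ ⋃ m ∈ {m | m ≠ i.1}, h m)).Countable :=
          (hhc i.1).union (hM0c.union
            (Set.Countable.biUnion (Set.to_countable _) fun m _ => hhc m))
        refine (h10 V G X (r i.1) (D.eni i.1).1 _ hUc).2.2.1 y h1 _ ?_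
        intro v hv
        right
        rcases hv with hv | hv
        · exact Or.inr (Or.inl hv)
        · rw [Set.mem_iUnion] at hv
          obtain ⟨j, hj⟩ := hv
          by_cases hji : j.1 = i.1
          · left
            rw [← hji]
            exact hj
          · right
            right
            exact Set.mem_biUnion (show j.1 ∈ {m | m ≠ i.1} from hji) hj)
  refine ⟨N, hN, ?_, ?_⟩
  · intro n hn
    have hhN : h n ⊆ N := by
      intro v hv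
      apply hAN
      right
      exact Set.mem_iUnion.2 ⟨⟨n, hn⟩, hv⟩
    exact ⟨(D.rh n).trans hhN, h n, D.hfin n, hhN, hOm ⟨n, hn⟩⟩
  · intro q hq hqf hqN hqb
    by_contra hcon
    push Not at hcon
    exact hNb q hq hqf hqN (fun i => hcon i.1 i.2) hqb

/-- step 6: an isomorphism between coding models -/
theorem acf_six (h3 : ST_UA) (h9 : ST_MDLB) (h12 : ST_SUPU) (h13 : ST_NOEQ) (h14 : ST_INVA)
    (h18 : ST_ATMB) (X : Ctx V G) (hF : Few X) {M0 : Set V} {p r : ℕ → Ty V}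
    {K h b : ℕ → Set V} {Z : ℕ → Fin 1 → V} (D : AcfDat X M0 p r K h b Z) (g : G) (n m : ℕ)
    (hno : NO X (mv g (r n)) (r m)) : n = m := by
  have hM0c : M0.Countable := D.mdl.1
  have I := h14 V G X g
  have J := h14 V G X g⁻¹
  have hsr : SR X (mv g (r n)) := I.2.2.1 _ (D.eni n).1
  have hno' : NO X (r m) (mv g (r n)) := (h13 V G X).2.1 _ _ hno
  have hsp : Sp X (tr g (K n)) (r m) :=
    (h12 V G X).2.2.1 _ _ _ hsr (D.eni m).1 hno (I.2.2.2.2.1 _ _ (D.sp n))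
  have hnsp : ¬ Sp X (tr g M0) (r m) := by
    intro h20
    have h21 := (h12 V G X).2.2.1 _ _ _ (D.eni m).1 hsr hno' h20
    have h22 := J.2.2.2.2.1 _ _ h21
    rw [tr_inv_tr, I.1] at h22
    exact D.nsp n h22
  have hat : Atm X (tr g M0 ∪ Set.range (g • Z n)) (tr g (K n)) := by
    have h20 := (h18 V G X (M0 ∪ Set.range (Z n)) (K n)).2.2.1 g (D.atm n)
    rw [tr_union, tr_range] at h20
    exact h20
  have hua := h3 V G X (mv g (p n)) (p m) (r m) (tr g M0) (tr g (K n)) M0 (K m) (g • Z n) (Z m)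
    hF (I.2.2.1 _ (D.sr n)) (D.sr m) (D.eni m) ((h9 V G X).2.2.2.2.1 M0 g D.mdl)
    (tr_mono g (D.pM n)) (I.2.1 (p n) M0 (Z n) (D.sr n).cnt hM0c (D.rl n)) hat hsp hnsp
    D.mdl (D.pM m) (D.rl m) (D.atm m) (D.sp m) (D.nsp m)
  exact D.orb n m g hua

theorem st_ACF (h1 : ST_NN) (h2 : ST_ACI) (h3 : ST_UA) (h4 : ST_ORBC) (h5 : ST_CT)
    (h6 : ST_ORT) (h7 : ST_ENIU) (h8 : ST_PRIM) (h9 : ST_MDLB) (h10 : ST_RLB)
    (_h11 : ST_SRFIN) (h12 : ST_SUPU) (h13 : ST_NOEQ) (h14 : ST_INVA) (h15 : ST_IND)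
    (h16 : ST_FDOM) (_h17 : ST_FWB) (h18 : ST_ATMB) : ST_ACF := by
  intro V G _ _ X hF
  rintro ⟨C, hC, hCC⟩
  obtain ⟨M0, p, hM0, hp, horb⟩ := acf_one h1 h2 h4 h9 h12 h13 X hF C hC hCC
  obtain ⟨Z, K, hZK, hind⟩ := acf_two h8 h9 h10 h14 h15 h18 X M0 p hM0
    (fun n => ⟨(hp n).1, (hp n).2.2.1⟩)
  have hex := fun n => acf_three h2 h7 h10 h12 h16 X hF M0 (K n) (p n) (Z n) hM0 (hp n).1
    (hp n).2.2.1 (hp n).2.2.2 (hZK n).1 (hZK n).2
  choose r h b e1 e2 e3 e4 e5 e6 e7 e8 e9 e10 using hex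
  have hhc : ∀ n, (h n).Countable := fun n => (e5 n).countable
  have hKc : ∀ n, (K n).Countable := fun n => (hZK n).2.1.1
  have hindh : Ind X M0 h := by
    intro I J hIJ
    have hcK : ∀ I : Set ℕ, (⋃ i ∈ I, K i).Countable := fun I =>
      Set.Countable.biUnion (Set.to_countable _) fun m _ => hKc m
    refine si_left (Set.biUnion_mono le_rfl fun i _ => e6 i) ?_
    exact si_right hM0.1 (hcK I) (hcK J) (Set.biUnion_mono le_rfl fun i _ => e6 i)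
      (hind I J hIJ)
  have D : AcfDat X M0 p r K h b Z := ⟨hM0, fun n => (hp n).1, fun n => (hp n).2.2.1, horb,
    fun n => (hZK n).1, fun n => (hZK n).2, e1, e2, e3, e4, e5, e7, e8, e9, e10, hindh⟩
  have hN := acf_five h5 h6 h10 X D
  choose N hN1 hN2 hN3 using hN
  have key : ∀ (x y : ℕ → Bool) (g : G), tr g (N x) = N y → ∀ n, x n = true → y n = true := by
    intro x y g hg n hn
    have I := h14 V G X g
    obtain ⟨hA, hB⟩ := hN2 x n hn
    have hb1 : Bd X (mv g (r n)) (N y) := by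
      rw [← hg]
      exact I.2.2.2.2.2.2.2.1 (r n) (N x) (e1 n).1.cnt hB
    have hA1 : (mv g (r n)).A ⊆ N y := by
      rw [← hg]
      exact tr_mono g hA
    obtain ⟨m, hm, hno⟩ := hN3 y (mv g (r n)) (I.2.2.1 _ (e1 n).1) (tr_finite g (e1 n).2.1)
      hA1 hb1
    have hnm := acf_six h3 h9 h12 h13 h14 h18 X hF D g n m hno
    rw [hnm]
    exact hm
  apply hF
  refine ⟨N, hN1, ?_⟩
  rintro x y ⟨g, hg⟩
  have hg' : tr g⁻¹ (N y) = N x := by rw [← hg, tr_inv_tr]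
  funext n
  have k1 := key x y g hg n
  have k2 := key y x g⁻¹ hg' n
  cases h20 : x n <;> cases h21 : y n <;> simp_all

end Pool.Agent.Helper90.MZ
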